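import Pool.Agent.Helper29.AR.Props

open scoped ENNReal NNReal InnerProductSpace ComplexOrder
open Filter Topology

attribute [-instance] CStarMatrix.instAlgebra CStarMatrix.instModule CStarMatrix.instSMul
  CStarMatrix.instMulAction CStarMatrix.instDistribMulAction

noncomputable section
namespace RC
universe u

namespace CoreStepL90

theorem ramp_cont (s t : ℝ) : Continuous (ramp s t) := by
  unfold ramp
  exact continuous_const.max (continuous_const.min ((continuous_id.sub continuous_const).div_const _))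

theorem ramp_nonneg (s t x : ℝ) : 0 ≤ ramp s t x := le_max_left _ _

theorem ramp_le (s t x : ℝ) : ramp s t x ≤ 1 := by
  unfold ramp
  exact max_le zero_le_one (min_le_left _ _)

theorem ramp_zero {s t x : ℝ} (h : s < t) (hx : x ≤ s) : ramp s t x = 0 := by
  unfold ramp
  apply max_eq_left
  apply (min_le_right _ _).trans
  exact div_nonpos_of_nonpos_of_nonneg (by linarith) (by linarith)

theorem ramp_one {s t x : ℝ} (h : s < t) (hx : t ≤ x) : ramp s t x = 1 := by
  unfold ramp
  have : 1 ≤ (x - s) / (t - s) := by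
    rw [le_div_iff₀ (by linarith)]; linarith
  rw [min_eq_left this]; simp

theorem sq_add_le {M : Type u} [CStarAlgebra M] [PartialOrder M] [StarOrderedRing M] (x y : M) :
    sq (x + y) ≤ (2 : ℝ) • (sq x + sq y) := by
  have h0 : (0 : M) ≤ sq (x - y) := star_mul_self_nonneg _
  have e : (2 : ℝ) • (sq x + sq y) = sq (x + y) + sq (x - y) := by
    rw [two_smul]
    show star x * x + star y * y + (star x * x + star y * y) =
      star (x + y) * (x + y) + star (x - y) * (x - y)
    rw [star_add, star_sub]; noncomm_ring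
  rw [e]
  exact le_add_of_nonneg_right h0

theorem sq_mul_le {M : Type u} [CStarAlgebra M] [PartialOrder M] [StarOrderedRing M] (c z : M) :
    sq (c * z) ≤ (‖c‖ ^ 2) • sq z := by
  have h1 : star c * c ≤ algebraMap ℝ M (‖c‖ ^ 2) := CStarAlgebra.star_mul_le_algebraMap_norm_sq
  have h2 := star_left_conjugate_le_conjugate h1 z
  have e1 : star z * (star c * c) * z = sq (c * z) := by
    show _ = star (c * z) * (c * z)
    rw [star_mul]; noncomm_ring
  have e2 : star z * algebraMap ℝ M (‖c‖ ^ 2) * z = (‖c‖ ^ 2) • sq z := by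
    rw [Algebra.algebraMap_eq_smul_one, mul_smul_comm, smul_mul_assoc, mul_one]
  rw [e1, e2] at h2
  exact h2

/-- The square of a combination of four elements. -/
theorem sq_comb {M : Type u} [CStarAlgebra M] [PartialOrder M] [StarOrderedRing M]
    (c₁ c₂ c₃ c₄ : M) : ∃ K : ℝ, 0 < K ∧ ∀ z₁ z₂ z₃ z₄ : M,
    sq (c₁ * z₁ + c₂ * z₂ + (c₃ * z₃ + c₄ * z₄)) ≤ K • (sq z₁ + sq z₂ + (sq z₃ + sq z₄)) := by
  set C : ℝ := ‖c₁‖ ^ 2 + ‖c₂‖ ^ 2 + (‖c₃‖ ^ 2 + ‖c₄‖ ^ 2) + 1 with hC
  have hC0 : 0 < C := by positivity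
  have hm : ∀ (c z : M), ‖c‖ ^ 2 ≤ C → sq (c * z) ≤ C • sq z := fun c z hc =>
    (sq_mul_le c z).trans (smul_le_smul_of_nonneg_right hc (star_mul_self_nonneg z))
  have p1 := sq_nonneg ‖c₁‖
  have p2 := sq_nonneg ‖c₂‖
  have p3 := sq_nonneg ‖c₃‖
  have p4 := sq_nonneg ‖c₄‖
  refine ⟨4 * C, by positivity, fun z₁ z₂ z₃ z₄ => ?_⟩
  have h2 : ∀ x y : M, (2 : ℝ) • (x + y) = (2 : ℝ) • x + (2 : ℝ) • y := fun x y => smul_add _ _ _
  have hs : ∀ x y : M, x ≤ y → (2 : ℝ) • x ≤ (2 : ℝ) • y := fun x y h =>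
    smul_le_smul_of_nonneg_left h (by norm_num)
  calc sq (c₁ * z₁ + c₂ * z₂ + (c₃ * z₃ + c₄ * z₄))
      ≤ (2 : ℝ) • (sq (c₁ * z₁ + c₂ * z₂) + sq (c₃ * z₃ + c₄ * z₄)) := sq_add_le _ _
    _ ≤ (2 : ℝ) • ((2 : ℝ) • (sq (c₁ * z₁) + sq (c₂ * z₂)) +
          (2 : ℝ) • (sq (c₃ * z₃) + sq (c₄ * z₄))) :=
        hs _ _ (add_le_add (sq_add_le _ _) (sq_add_le _ _))
    _ ≤ (2 : ℝ) • ((2 : ℝ) • (C • sq z₁ + C • sq z₂) + (2 : ℝ) • (C • sq z₃ + C • sq z₄)) :=
        hs _ _ (add_le_add (hs _ _ (add_le_add (hm _ _ (by linarith)) (hm _ _ (by linarith))))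
          (hs _ _ (add_le_add (hm _ _ (by linarith)) (hm _ _ (by linarith)))))
    _ = (4 * C) • (sq z₁ + sq z₂ + (sq z₃ + sq z₄)) := by
        rw [← smul_add, ← smul_add, ← smul_add, ← smul_add, smul_smul, smul_smul]
        congr 1
        ring

theorem main (hD : DimP.{u}) (hC : CokerP.{u}) (h1 : InvExtLP.{u}) (h2 : H1LP.{u}) :
    CoreStepLP.{u} := by
  intro M _ _ _ hsr a b X₀ X₁ ε κ θ hε hκ hθ
  set V0 : M := b * X₀ * a with hV0
  set V1 : M := b * X₁ * a with hV1
  set P : M := sq V1 with hPdef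
  have hP : IsSelfAdjoint P := IsSelfAdjoint.star_mul_self V1
  let fc : ℝ → ℝ := ramp (ε / 3) (2 * ε / 3)
  let fb : ℝ → ℝ := ramp (2 * ε / 3) ε
  let fa : ℝ → ℝ := fun t => max (t - ε) 0
  let ft : ℝ → ℝ := fun t => fb t / max t (ε / 3)
  let fs : ℝ → ℝ := fun t => Real.sqrt (fb t)
  have cc : Continuous fc := ramp_cont _ _
  have cb : Continuous fb := ramp_cont _ _
  have ca : Continuous fa := (continuous_id.sub continuous_const).max continuous_const
  have ct : Continuous ft := by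
    apply cb.div (continuous_id.max continuous_const)
    intro x
    have : 0 < max x (ε / 3) := lt_of_lt_of_le (by positivity) (le_max_right _ _)
    exact this.ne'
  have cs : Continuous fs := Real.continuous_sqrt.comp cb
  have h13 : ε / 3 < 2 * ε / 3 := by linarith
  have h23 : 2 * ε / 3 < ε := by linarith
  set Fc : M := cfc fc P with hFc
  set Fb : M := cfc fb P with hFb
  set Fa : M := cfc fa P with hFa
  set Ft : M := cfc ft P with hFt
  set h : M := cfc fs P with hh
  have mulc : ∀ f g : ℝ → ℝ, Continuous f → Continuous g → ∀ k : ℝ → ℝ,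
      (∀ t, f t * g t = k t) → cfc f P * cfc g P = cfc k P := by
    intro f g hf hg k hk
    rw [← cfc_mul f g P hf.continuousOn hg.continuousOn]
    congr 1
    funext t
    exact hk t
  have ecb : Fc * Fb = Fb := by
    refine mulc fc fb cc cb fb fun t => ?_
    rcases le_total t (2 * ε / 3) with ht | ht
    · have : fb t = 0 := ramp_zero h23 ht
      rw [this, mul_zero]
    · have : fc t = 1 := ramp_one h13 ht
      rw [this, one_mul]
  have eba : Fb * Fa = Fa := by
    refine mulc fb fa cb ca fa fun t => ?_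
    rcases le_total t ε with ht | ht
    · have : fa t = 0 := max_eq_right (by linarith)
      rw [this, mul_zero]
    · have : fb t = 1 := ramp_one h23 ht
      rw [this, one_mul]
  have ehh : h * h = Fb := by
    refine mulc fs fs cs cs fb fun t => ?_
    exact Real.mul_self_sqrt (ramp_nonneg _ _ _)
  have ech : Fc * h = h := by
    refine mulc fc fs cc cs fs fun t => ?_
    rcases le_total t (2 * ε / 3) with ht | ht
    · have : fb t = 0 := ramp_zero h23 ht
      show fc t * Real.sqrt (fb t) = Real.sqrt (fb t)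
      rw [this, Real.sqrt_zero, mul_zero]
    · have : fc t = 1 := ramp_one h13 ht
      rw [this, one_mul]
  have ehc : h * Fc = h := by
    refine mulc fs fc cs cc fs fun t => ?_
    rcases le_total t (2 * ε / 3) with ht | ht
    · have : fb t = 0 := ramp_zero h23 ht
      show Real.sqrt (fb t) * fc t = Real.sqrt (fb t)
      rw [this, Real.sqrt_zero, zero_mul]
    · have : fc t = 1 := ramp_one h13 ht
      rw [this, mul_one]
  have etP : Ft * P = Fb := by
    have e := mulc ft (fun t => t) ct continuous_id fb fun t => by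
      rcases le_total t (ε / 3) with ht | ht
      · have : fb t = 0 := ramp_zero h23 (by linarith)
        show fb t / _ * t = fb t
        rw [this]; simp
      · have h0 : t ≠ 0 := by
          have : 0 < t := lt_of_lt_of_le (by positivity) ht
          exact this.ne'
        show fb t / max t (ε / 3) * t = fb t
        rw [max_eq_left ht, div_mul_cancel₀ _ h0]
    have e2 : cfc (fun t : ℝ => t) P = P := cfc_id' ℝ P hP
    rw [e2] at e
    exact e
  have nc : ‖Fc‖ ≤ 1 := by
    apply norm_cfc_le zero_le_one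
    intro x _
    rw [Real.norm_of_nonneg (ramp_nonneg _ _ _)]
    exact ramp_le _ _ _
  have nb : ‖Fb‖ ≤ 1 := by
    apply norm_cfc_le zero_le_one
    intro x _
    rw [Real.norm_of_nonneg (ramp_nonneg _ _ _)]
    exact ramp_le _ _ _
  have sa : star Fa = Fa := (IsSelfAdjoint.cfc (f := fa) (a := P)).star_eq
  obtain ⟨y, L1, hL1, ⟨a1, b1, hab1⟩, hS1, hyF⟩ :=
    h1 M hsr V1 (ε / 3) (θ / 4) (by positivity) (by positivity)
  have yc : y * Fc = V1 * Fc := hyF fc cc fun t ht => ramp_zero h13 ht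
  have ya : y * Fa = V1 * Fa := hyF fa ca fun t ht => max_eq_right (by linarith)
  obtain ⟨y', b2, L2, hL2, hyy, hS2'⟩ := hC M y L1 hL1 ⟨a1, b1, hab1⟩
  have hS2 : SmT (θ / 4) L2 := fun φ σ hσ => (hS2' φ σ hσ).trans (hS1 φ σ hσ)
  set s : M := y' * V0 with hs
  have ys : y * s = V0 - L2 * b2 * V0 := by
    have e : y * y' = 1 - L2 * b2 := eq_sub_of_add_eq hyy
    rw [hs, ← mul_assoc, e]; noncomm_ring
  set lam : ℝ := κ / (2 * ‖V1‖ + 2) with hlam
  have hden : (0 : ℝ) < 2 * ‖V1‖ + 2 := by positivity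
  have hlam0 : 0 < lam := div_pos hκ hden
  obtain ⟨g, L3, hg, hL3, ⟨a3, b3, hab3⟩, hS3⟩ :=
    h2 M hsr h s lam lam (θ / 4) hlam0 hlam0 (by positivity)
  set L : M := lam • (1 : M) with hL
  have Lc : ∀ z : M, L * z = z * L := by
    intro z
    rw [hL, smul_mul_assoc, mul_smul_comm, one_mul, mul_one]
  have LL : L * (lam⁻¹ • (1 : M)) = 1 := by
    rw [hL, smul_mul_assoc, one_mul, smul_smul, mul_inv_cancel₀ hlam0.ne', one_smul]
  have LL' : (lam⁻¹ • (1 : M)) * L = 1 := by rw [← Lc, LL]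
  set Li : M := lam⁻¹ • (1 : M) with hLi
  set T : M := s + Fc * (g - s) with hT
  set V : M := V0 + V1 * Fc * (g - s + L) * Fb with hV
  set X : M := X₀ + X₁ * a * Fc * (g - s + L) * Ft * star V1 * b * X₁ with hX
  have hbXa : b * X * a = V := by
    have e1 : Fb = Ft * (star V1 * V1) := etP.symm
    calc b * X * a = b * X₀ * a + (b * X₁ * a) * Fc * (g - s + L) * (Ft * (star V1 * (b * X₁ * a))) := by
          rw [hX]; noncomm_ring
      _ = V := by rw [hV, e1, ← hV0, ← hV1]
  set Th : M := L + T * Fb with hTh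
  have hca : Fc * Fa = Fa := by
    calc Fc * Fa = (Fc * Fb) * Fa := by rw [mul_assoc, eba]
      _ = Fa := by rw [ecb, eba]
  -- (i)
  have hVa : V * Fa = y * Th * Fa + L2 * b2 * V0 * Fa := by
    calc V * Fa = V0 * Fa + V1 * Fc * (g - s) * (Fb * Fa) + V1 * Fc * (L * (Fb * Fa)) := by
          rw [hV]; noncomm_ring
      _ = V0 * Fa + V1 * Fc * (g - s) * Fa + V1 * (Fc * Fa) * L := by
          rw [eba, Lc]; noncomm_ring
      _ = V0 * Fa + V1 * Fc * (g - s) * Fa + V1 * Fa * L := by rw [hca]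
      _ = V0 * Fa + y * Fc * (g - s) * Fa + y * Fa * L := by rw [yc, ya]
      _ = V0 * Fa + y * Fc * (g - s) * Fa + y * (L * Fa) := by rw [Lc Fa, ← mul_assoc y Fa L]
      _ = (V0 - L2 * b2 * V0) * Fa + y * Fc * (g - s) * Fa + y * (L * Fa) +
            L2 * b2 * V0 * Fa := by noncomm_ring
      _ = (y * s) * Fa + y * Fc * (g - s) * Fa + y * (L * Fa) + L2 * b2 * V0 * Fa := by rw [ys]
      _ = y * L * Fa + y * (s + Fc * (g - s)) * (Fb * Fa) + L2 * b2 * V0 * Fa := by
          rw [eba]; noncomm_ring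
      _ = y * Th * Fa + L2 * b2 * V0 * Fa := by rw [hTh, hT]; noncomm_ring
  -- (ii)
  have e2 : h * T * h = h * g * h := by
    calc h * T * h = h * s * h + (h * Fc) * (g - s) * h := by rw [hT]; noncomm_ring
      _ = h * s * h + h * (g - s) * h := by rw [ehc]
      _ = h * g * h := by noncomm_ring
  have e3 : h * Th = (L + h * g * h) * h := by
    calc h * Th = h * L + h * T * (h * h) := by rw [hTh, ehh]; noncomm_ring
      _ = L * h + (h * T * h) * h := by rw [Lc]; noncomm_ring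
      _ = (L + h * g * h) * h := by rw [e2]; noncomm_ring
  have e4 : h = a3 * (h * Th) + b3 * L3 * h := by
    calc h = (a3 * (L + h * g * h) + b3 * L3) * h := by rw [hab3, one_mul]
      _ = a3 * ((L + h * g * h) * h) + b3 * L3 * h := by noncomm_ring
      _ = a3 * (h * Th) + b3 * L3 * h := by rw [e3]
  have e5 : L = (1 - T * h * a3 * h) * Th - T * h * b3 * (L3 * h) := by
    have e6 : L = Th - T * h * h := by rw [hTh, mul_assoc T, ehh]; noncomm_ring
    calc L = Th - T * h * h := e6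
      _ = Th - T * h * (a3 * (h * Th) + b3 * L3 * h) := by rw [← e4]
      _ = (1 - T * h * a3 * h) * Th - T * h * b3 * (L3 * h) := by noncomm_ring
  set k1 : M := Li * (1 - T * h * a3 * h) with hk1
  set k2 : M := -(Li * (T * h * b3)) with hk2
  have e7 : 1 = k1 * Th + k2 * (L3 * h) := by
    calc (1 : M) = Li * L := LL'.symm
      _ = Li * ((1 - T * h * a3 * h) * Th - T * h * b3 * (L3 * h)) := by rw [← e5]
      _ = k1 * Th + k2 * (L3 * h) := by rw [hk1, hk2]; noncomm_ring
  -- (iii)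
  have e8 : Fa = k1 * a1 * (V * Fa) + -(k1 * a1) * (L2 * b2 * V0 * Fa) +
      (k1 * b1 * (L1 * Th * Fa) + k2 * (L3 * h * Fa)) := by
    calc Fa = (k1 * Th + k2 * (L3 * h)) * Fa := by rw [← e7, one_mul]
      _ = k1 * (1 * Th) * Fa + k2 * (L3 * h * Fa) := by noncomm_ring
      _ = k1 * ((a1 * y + b1 * L1) * Th) * Fa + k2 * (L3 * h * Fa) := by rw [hab1]
      _ = k1 * a1 * (y * Th * Fa) + (k1 * b1 * (L1 * Th * Fa) + k2 * (L3 * h * Fa)) := by
          noncomm_ring
      _ = k1 * a1 * (V * Fa - L2 * b2 * V0 * Fa) +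
            (k1 * b1 * (L1 * Th * Fa) + k2 * (L3 * h * Fa)) := by
          rw [hVa, add_sub_cancel_right]
      _ = _ := by noncomm_ring
  obtain ⟨K, hK, hKs⟩ := sq_comb (k1 * a1) (-(k1 * a1)) (k1 * b1) k2
  have e9 := hKs (V * Fa) (L2 * b2 * V0 * Fa) (L1 * Th * Fa) (L3 * h * Fa)
  rw [← e8] at e9
  have e10 : sq Fa = Fa * Fa := by
    show star Fa * Fa = _
    rw [sa]
  have e11 : ∀ z : M, sq (z * Fa) = Fa * sq z * Fa := by
    intro z
    show star (z * Fa) * (z * Fa) = Fa * (star z * z) * Fa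
    rw [star_mul, sa]; noncomm_ring
  rw [e10, e11, e11, e11, e11] at e9
  set LL0 : M := sq (L2 * b2 * V0) + sq (L1 * Th) + sq (L3 * h) with hLL0
  have nLL0 : 0 ≤ LL0 := add_nonneg (add_nonneg (star_mul_self_nonneg _) (star_mul_self_nonneg _))
    (star_mul_self_nonneg _)
  have e12 : Fa * sq V * Fa + Fa * sq (L2 * b2 * V0) * Fa + (Fa * sq (L1 * Th) * Fa +
      Fa * sq (L3 * h) * Fa) = Fa * (sq V + LL0) * Fa := by
    rw [hLL0]; noncomm_ring
  rw [e12] at e9
  refine ⟨X, LL0, K⁻¹, inv_pos.mpr hK, nLL0, ?_, ?_, ?_⟩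
  · intro φ σ hσ
    obtain ⟨-, d2, d3, -⟩ := hD M σ
    have f1 : σ.dim (one1 (sq (L2 * b2 * V0))) ≤ θ / 4 := by
      have := d3 L2 1 (b2 * V0) hL2
      rw [one_mul, ← mul_assoc] at this
      exact this.trans (hS2 φ σ hσ)
    have f2 : σ.dim (one1 (sq (L1 * Th))) ≤ θ / 4 := by
      have := d3 L1 1 Th hL1
      rw [one_mul] at this
      exact this.trans (hS1 φ σ hσ)
    have f3 : σ.dim (one1 (sq (L3 * h))) ≤ θ / 4 := by
      have := d3 L3 1 h hL3
      rw [one_mul] at this
      exact this.trans (hS3 φ σ hσ)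
    have f4 := d2 3 ![sq (L2 * b2 * V0), sq (L1 * Th), sq (L3 * h)] (by
      intro i
      fin_cases i
      · exact star_mul_self_nonneg _
      · exact star_mul_self_nonneg _
      · exact star_mul_self_nonneg _)
    rw [Fin.sum_univ_three, Fin.sum_univ_three] at f4
    have f5 : σ.dim (one1 LL0) ≤ σ.dim (one1 (sq (L2 * b2 * V0))) +
      σ.dim (one1 (sq (L1 * Th))) + σ.dim (one1 (sq (L3 * h))) := f4
    linarith
  · have e : b * X * a - V0 = V1 * Fc * (g - s + L) * Fb := by rw [hbXa, hV]; noncomm_ring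
    rw [e]
    have nL : ‖L‖ ≤ lam := by
      rw [hL]
      refine (norm_smul_le _ _).trans ?_
      rw [Real.norm_of_nonneg hlam0.le]
      have h1' : ‖(1 : M)‖ ≤ 1 := by
        rcases subsingleton_or_nontrivial M with hM | hM
        · rw [Subsingleton.elim (1 : M) 0, norm_zero]; exact zero_le_one
        · exact (CStarRing.norm_one).le
      calc lam * ‖(1 : M)‖ ≤ lam * 1 := by gcongr
        _ = lam := mul_one _
    calc ‖V1 * Fc * (g - s + L) * Fb‖ ≤ ‖V1‖ * ‖Fc‖ * ‖g - s + L‖ * ‖Fb‖ := by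
          refine (norm_mul_le _ _).trans ?_
          gcongr
          refine (norm_mul_le _ _).trans ?_
          gcongr
          exact norm_mul_le _ _
      _ ≤ ‖V1‖ * 1 * (lam + lam) * 1 := by
          gcongr
          exact (norm_add_le _ _).trans (add_le_add hg nL)
      _ = 2 * ‖V1‖ * lam := by ring
      _ ≤ (2 * ‖V1‖ + 2) * lam := by nlinarith
      _ = κ := by rw [hlam]; field_simp
  · show K⁻¹ • (Fa * Fa) ≤ Fa * (sq (b * X * a) + LL0) * Fa
    rw [hbXa]
    calc K⁻¹ • (Fa * Fa) ≤ K⁻¹ • (K • (Fa * (sq V + LL0) * Fa)) :=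
          smul_le_smul_of_nonneg_left e9 (inv_pos.mpr hK).le
      _ = Fa * (sq V + LL0) * Fa := by rw [smul_smul, inv_mul_cancel₀ hK.ne', one_smul]

end CoreStepL90

theorem coreStepL (hD : DimP.{u}) (hC : CokerP.{u}) (h1 : InvExtLP.{u}) (h2 : H1LP.{u}) :
    CoreStepLP.{u} := CoreStepL90.main hD hC h1 h2

end RC
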